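import Pool.Agent.Helper35.VRC.Main

/-!
MP_61a31f_al, Q1: if `P` and `Q` have property (VRC) and `R ≤ P`, `S ≤ Q` are isomorphic virtually
cyclic subgroups, then the amalgamated free product `P *_{R = S} Q` has property (VRC).
The definitions `IsVirtualRetract`, `HasVRC`, `IsVirtuallyCyclic`, `amalgamRel`, `Amalgam` are in
`Pool/Agent/Helper35/VRC/Defs.lean`.
-/

namespace Pool.Agent.Results.MP_61a31f_al.AmalgamVRC

open Pool.Agent.Helper35.VRC

universe u v

/-- For arbitrary groups `P`, `Q` with property (VRC), subgroups `R` of `P` and `S` of `Q`, and an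
isomorphism `e : R ≃* S` with `R` virtually cyclic, the amalgamated free product `P *_{R = S} Q` has
property (VRC). -/
theorem result (P : Type u) (Q : Type v) [Group P] [Group Q] (hP : HasVRC P) (hQ : HasVRC Q)
    (R : Subgroup P) (S : Subgroup Q) (e : R ≃* S) (hR : IsVirtuallyCyclic R) :
    HasVRC (Amalgam R S e) :=
  (amalgam_isAmalg R S e).hasVRC hP hQ R.subtype_injective
    (S.subtype_injective.comp e.injective) hR

/-- Sanity check (not part of the result): cyclic groups are virtually cyclic, so the cyclic case of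
the question is included. -/
example (R : Type u) [Group R] [h : IsCyclic R] : IsVirtuallyCyclic R := by
  refine ⟨⊤, ?_, inferInstance⟩
  obtain ⟨g, hg⟩ := h.exists_generator
  refine ⟨⟨⟨g, trivial⟩, fun x => ?_⟩⟩
  obtain ⟨j, hj⟩ := hg x.1
  exact ⟨j, Subtype.ext hj⟩

end Pool.Agent.Results.MP_61a31f_al.AmalgamVRC
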